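import Mathlib

set_option autoImplicit false

namespace Pool.Agent.Q39.TM

/-- entries of the block matrices -/
def P : ℕ → ℤ × ℤ × ℤ × ℤ
  | 0 => (0, -1, 3, -1)
  | k + 1 => (1 - (P k).1 * ((P k).2.2.1 - (P k).1), -(P k).2.1 * ((P k).2.2.1 - (P k).1),
      1 + (P k).2.2.1 * ((P k).2.2.1 - (P k).1), -(P k).2.2.2)

def p (k : ℕ) : ℤ := (P k).1
def q (k : ℕ) : ℤ := (P k).2.1
def r (k : ℕ) : ℤ := (P k).2.2.1
def e (k : ℕ) : ℤ := (P k).2.2.2

lemma p_succ (k : ℕ) : p (k + 1) = 1 - p k * (r k - p k) := rfl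
lemma q_succ (k : ℕ) : q (k + 1) = -q k * (r k - p k) := rfl
lemma r_succ (k : ℕ) : r (k + 1) = 1 + r k * (r k - p k) := rfl
lemma e_succ (k : ℕ) : e (k + 1) = -e k := rfl

lemma e_sq (k : ℕ) : e k * e k = 1 := by
  induction k with
  | zero => rfl
  | succ k ih => rw [e_succ]; linarith [neg_mul_neg (e k) (e k)]

lemma det (k : ℕ) : p k * r k - e k * q k ^ 2 = 1 := by
  induction k with
  | zero => rfl
  | succ k ih =>
    rw [p_succ, q_succ, r_succ, e_succ]
    linear_combination (r k - p k) ^ 2 * (-ih)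

lemma r_succ' (k : ℕ) : r (k + 1) = r k ^ 2 - e k * q k ^ 2 := by
  rw [r_succ]; linear_combination -det k

lemma bounds (k : ℕ) : 3 ≤ r k ∧ 3 * |q k| ≤ r k ∧ 9 * |p k| ≤ r k + 3 := by
  induction k with
  | zero => decide
  | succ k ih =>
    obtain ⟨h1, h2, h3⟩ := ih
    have hp := le_abs_self (p k)
    have hd : 1 ≤ r k - p k := by omega
    have hr' : 3 ≤ r (k + 1) := by rw [r_succ]; nlinarith
    have hq' : 3 * |q (k + 1)| ≤ r (k + 1) := by
      rw [q_succ, r_succ, abs_mul, abs_neg, abs_of_pos (by omega : 0 < r k - p k)]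
      nlinarith
    refine ⟨hr', hq', ?_⟩
    -- p' r' = 1 + e' q'^2
    have hdet := det (k + 1)
    have he : |e (k + 1)| = 1 := by
      have := e_sq (k + 1)
      rw [← abs_mul_abs_self] at this
      have h0 := abs_nonneg (e (k + 1))
      nlinarith
    have h4 : |p (k + 1)| * r (k + 1) ≤ 1 + |q (k + 1)| ^ 2 := by
      have : |p (k + 1)| * r (k + 1) = |1 + e (k + 1) * q (k + 1) ^ 2| := by
        have e0 : r (k + 1) = |r (k + 1)| := (abs_of_pos (by omega)).symm
        calc |p (k + 1)| * r (k + 1) = |p (k + 1)| * |r (k + 1)| := by rw [← e0]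
          _ = |p (k + 1) * r (k + 1)| := (abs_mul _ _).symm
          _ = _ := by congr 1; linarith
      rw [this]
      refine (abs_add_le _ _).trans ?_
      rw [abs_one, abs_mul, he, one_mul, abs_pow]
    have h5 : 9 * |q (k + 1)| ^ 2 ≤ r (k + 1) ^ 2 := by
      have h0 := abs_nonneg (q (k + 1))
      nlinarith
    have h6 : (9 * |p (k + 1)|) * r (k + 1) ≤ (r (k + 1) + 3) * r (k + 1) := by nlinarith
    exact le_of_mul_le_mul_right h6 (by omega)

/-- one step -/
def step (T : ℤ) (s : ℤ × ℤ) : ℤ × ℤ := (-T * s.2, T * s.1 + 3 * s.2)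

/-- run from position `m` -/
def run (t : ℕ → ℤ) (s : ℤ × ℤ) (m : ℕ) : ℕ → ℤ × ℤ
  | 0 => s
  | n + 1 => step (t (m + n)) (run t s m n)

lemma run_add (t : ℕ → ℤ) (s : ℤ × ℤ) (m i j : ℕ) :
    run t s m (i + j) = run t (run t s m i) (m + i) j := by
  induction j with
  | zero => rfl
  | succ j ih =>
    show step (t (m + (i + j))) (run t s m (i + j)) = step (t (m + i + j)) _
    rw [ih, add_assoc]

section
variable (t : ℕ → ℤ) (h2 : ∀ n, t (2 * n) = t n) (h3 : ∀ n, t (2 * n + 1) = -t n)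
  (h1 : ∀ n, t n * t n = 1)

include h1 h2 h3 in
lemma block (k a : ℕ) (s : ℤ × ℤ) : run t s (a * 2 ^ k) (2 ^ k) =
    (p k * s.1 + t a * q k * s.2, t a * e k * q k * s.1 + r k * s.2) := by
  induction k generalizing a s with
  | zero =>
    show step (t (a * 2 ^ 0 + 0)) s = _
    simp only [pow_zero, mul_one, add_zero]
    show (-t a * s.2, t a * s.1 + 3 * s.2) = (0 * s.1 + t a * (-1) * s.2, t a * (-1) * (-1) * s.1 + 3 * s.2)
    ext <;> simp <;> ring
  | succ k ih =>
    have e1 : a * 2 ^ (k + 1) = (2 * a) * 2 ^ k := by ring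
    have e2 : 2 ^ (k + 1) = 2 ^ k + 2 ^ k := by ring
    rw [e1, e2, run_add, ih, show 2 * a * 2 ^ k + 2 ^ k = (2 * a + 1) * 2 ^ k by ring, ih, h2, h3,
      p_succ, q_succ, r_succ, e_succ]
    have hT := h1 a
    have hd := det k
    ext
    · simp only
      linear_combination (-e k * q k ^ 2 * s.1) * hT + s.1 * hd
    · simp only
      linear_combination (-e k * q k ^ 2 * s.2) * hT + s.2 * hd

end

end Pool.Agent.Q39.TM
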