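import Mathlib
import Pool.Agent.Q39.TM.Core

set_option autoImplicit false

namespace Pool.Agent.Q39.TM
open Filter

noncomputable def Lr (k : ℕ) : ℝ := Real.log (r k)

lemma r_pos (k : ℕ) : (0 : ℝ) < r k := by
  have := (bounds k).1
  exact_mod_cast (by omega : 0 < r k)

lemma e_abs (k : ℕ) : |e k| = 1 := by
  have := e_sq k
  rw [← abs_mul_abs_self] at this
  have h0 := abs_nonneg (e k)
  nlinarith

lemma Lr_succ (k : ℕ) : |Lr (k + 1) - 2 * Lr k| ≤ Real.log (9 / 8) := by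
  obtain ⟨h1, h2, h3⟩ := bounds k
  have hr := r_pos k
  have hq : 9 * q k ^ 2 ≤ r k ^ 2 := by
    have h0 := abs_nonneg (q k)
    have : 9 * |q k| ^ 2 ≤ r k ^ 2 := by nlinarith
    rwa [sq_abs] at this
  have he := e_abs k
  have hup : 9 * r (k + 1) ≤ 10 * r k ^ 2 := by
    rw [r_succ']
    have := neg_abs_le (e k)
    have h4 : -(1 : ℤ) ≤ e k := by omega
    nlinarith [sq_nonneg (q k)]
  have hlo : 8 * r k ^ 2 ≤ 9 * r (k + 1) := by
    rw [r_succ']
    have := le_abs_self (e k)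
    have h4 : e k ≤ 1 := by omega
    nlinarith [sq_nonneg (q k)]
  have hup' : (9 : ℝ) * r (k + 1) ≤ 10 * (r k : ℝ) ^ 2 := by exact_mod_cast hup
  have hlo' : (8 : ℝ) * (r k : ℝ) ^ 2 ≤ 9 * r (k + 1) := by exact_mod_cast hlo
  have hr' := r_pos (k + 1)
  have e1 : Lr (k + 1) - 2 * Lr k = Real.log (r (k + 1) / (r k : ℝ) ^ 2) := by
    unfold Lr
    rw [Real.log_div hr'.ne' (by positivity), Real.log_pow]
    push_cast
    ring
  rw [e1, abs_le]
  constructor
  · rw [← Real.log_inv]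
    apply Real.log_le_log (by norm_num)
    rw [le_div_iff₀ (by positivity)]
    linarith
  · apply Real.log_le_log (by positivity)
    rw [div_le_iff₀ (by positivity)]
    nlinarith [sq_nonneg (r k : ℝ)]

lemma exists_c : ∃ c : ℝ, ∀ k : ℕ, |Lr k - c * 2 ^ k| ≤ Real.log (9 / 8) := by
  have h1 : ∀ k : ℕ, dist (Lr k / 2 ^ k) (Lr (k + 1) / 2 ^ (k + 1)) ≤ Real.log (9 / 8) / 2 / 2 ^ k := by
    intro k
    rw [Real.dist_eq, abs_sub_comm]
    have e1 : Lr (k + 1) / 2 ^ (k + 1) - Lr k / 2 ^ k = (Lr (k + 1) - 2 * Lr k) / 2 ^ (k + 1) := by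
      rw [pow_succ]; field_simp
    rw [e1, abs_div, abs_of_pos (by positivity : (0 : ℝ) < 2 ^ (k + 1))]
    have := Lr_succ k
    calc |Lr (k + 1) - 2 * Lr k| / 2 ^ (k + 1) ≤ Real.log (9 / 8) / 2 ^ (k + 1) :=
          div_le_div_of_nonneg_right this (by positivity)
      _ = _ := by rw [pow_succ]; field_simp
  obtain ⟨c, hc⟩ := cauchySeq_tendsto_of_complete (cauchySeq_of_le_geometric_two h1)
  refine ⟨c, fun k => ?_⟩
  have h2 := dist_le_of_le_geometric_two_of_tendsto h1 hc k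
  rw [Real.dist_eq] at h2
  have hk : (0 : ℝ) < 2 ^ k := by positivity
  have e1 : Lr k - c * 2 ^ k = (Lr k / 2 ^ k - c) * 2 ^ k := by field_simp
  rw [e1, abs_mul, abs_of_pos hk]
  calc |Lr k / 2 ^ k - c| * 2 ^ k ≤ Real.log (9 / 8) / 2 ^ k * 2 ^ k :=
        mul_le_mul_of_nonneg_right h2 hk.le
    _ = _ := by field_simp

section
variable (t : ℕ → ℤ) (h2 : ∀ n, t (2 * n) = t n) (h3 : ∀ n, t (2 * n + 1) = -t n)
  (h1 : ∀ n, t n * t n = 1) (c : ℝ) (hc : ∀ k : ℕ, |Lr k - c * 2 ^ k| ≤ Real.log (9 / 8))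

lemma logs : Real.log (9 / 8) + Real.log (3 / 2) ≤ 1 := by
  have e1 : Real.log (9 / 8) + Real.log (3 / 2) = Real.log (27 / 16) := by
    rw [← Real.log_mul (by norm_num) (by norm_num)]; norm_num
  rw [e1, Real.log_le_iff_le_exp (by norm_num)]
  have := Real.exp_one_gt_d9
  linarith

include h1 h2 h3 hc in
lemma full (k a : ℕ) (s : ℤ × ℤ) (hs : |s.1| ≤ |s.2|) (hs0 : s.2 ≠ 0) :
    |(run t s (a * 2 ^ k) (2 ^ k)).1| ≤ |(run t s (a * 2 ^ k) (2 ^ k)).2| ∧
    (run t s (a * 2 ^ k) (2 ^ k)).2 ≠ 0 ∧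
    |Real.log |((run t s (a * 2 ^ k) (2 ^ k)).2 : ℝ)| - Real.log |(s.2 : ℝ)| - c * 2 ^ k| ≤ 1 := by
  rw [block t h2 h3 h1]
  simp only
  obtain ⟨b1, b2, b3⟩ := bounds k
  have hT : |t a| = 1 := by
    have := h1 a
    rw [← abs_mul_abs_self] at this
    have h0 := abs_nonneg (t a)
    nlinarith
  have he := e_abs k
  set x := s.1
  set y := s.2
  have hy : 0 < |y| := abs_pos.2 hs0
  have hx0 := abs_nonneg x
  have hq0 := abs_nonneg (q k)
  have hp0 := abs_nonneg (p k)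
  -- the main term
  have m1 : |t a * e k * q k * x| ≤ |q k| * |y| := by
    rw [abs_mul, abs_mul, abs_mul, hT, he, one_mul, one_mul]
    exact mul_le_mul_of_nonneg_left hs hq0
  have m2 : |r k * y| = r k * |y| := by rw [abs_mul, abs_of_pos (by omega)]
  have lo : (r k - |q k|) * |y| ≤ |t a * e k * q k * x + r k * y| := by
    have := abs_sub_abs_le_abs_sub (r k * y) (-(t a * e k * q k * x))
    rw [abs_neg, m2, sub_neg_eq_add, add_comm (r k * y)] at this
    nlinarith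
  have up : |t a * e k * q k * x + r k * y| ≤ (r k + |q k|) * |y| := by
    have := abs_add_le (t a * e k * q k * x) (r k * y)
    rw [m2] at this
    nlinarith
  have xb : |p k * x + t a * q k * y| ≤ (|p k| + |q k|) * |y| := by
    refine (abs_add_le _ _).trans ?_
    rw [abs_mul, abs_mul, abs_mul, hT, one_mul]
    nlinarith
  have lo3 : 2 * r k * |y| ≤ 3 * |t a * e k * q k * x + r k * y| := by nlinarith
  have up3 : 3 * |t a * e k * q k * x + r k * y| ≤ 4 * r k * |y| := by nlinarith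
  have hY : 0 < |t a * e k * q k * x + r k * y| := by nlinarith
  refine ⟨?_, abs_pos.1 hY, ?_⟩
  · refine xb.trans (le_trans ?_ lo)
    apply mul_le_mul_of_nonneg_right _ hy.le
    omega
  · set Y := t a * e k * q k * x + r k * y with hYd
    have lo' : (2 : ℝ) * r k * |(y : ℝ)| ≤ 3 * |(Y : ℝ)| := by exact_mod_cast lo3
    have up' : (3 : ℝ) * |(Y : ℝ)| ≤ 4 * r k * |(y : ℝ)| := by exact_mod_cast up3
    have hr := r_pos k
    have hy' : (0 : ℝ) < |(y : ℝ)| := by exact_mod_cast hy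
    have hY' : (0 : ℝ) < |(Y : ℝ)| := by exact_mod_cast hY
    have e1 : |Real.log |(Y : ℝ)| - Real.log |(y : ℝ)| - Lr k| ≤ Real.log (3 / 2) := by
      have e2 : Real.log |(Y : ℝ)| - Real.log |(y : ℝ)| - Lr k = Real.log (|(Y : ℝ)| / (|(y : ℝ)| * r k)) := by
        unfold Lr
        rw [Real.log_div hY'.ne' (by positivity), Real.log_mul hy'.ne' hr.ne']
        ring
      rw [e2, abs_le]
      constructor
      · rw [← Real.log_inv]
        apply Real.log_le_log (by norm_num)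
        rw [le_div_iff₀ (by positivity)]
        nlinarith
      · apply Real.log_le_log (by positivity)
        rw [div_le_iff₀ (by positivity)]
        nlinarith [mul_pos hy' hr]
    have e3 : Real.log |(Y : ℝ)| - Real.log |(y : ℝ)| - c * 2 ^ k =
      (Real.log |(Y : ℝ)| - Real.log |(y : ℝ)| - Lr k) + (Lr k - c * 2 ^ k) := by ring
    rw [e3]
    refine (abs_add_le _ _).trans ?_
    have := hc k
    have := logs
    linarith

include h1 h2 h3 hc in
lemma claim (k : ℕ) : ∀ (a n : ℕ) (s : ℤ × ℤ), n ≤ 2 ^ k → |s.1| ≤ |s.2| → s.2 ≠ 0 →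
    |(run t s (a * 2 ^ k) n).1| ≤ |(run t s (a * 2 ^ k) n).2| ∧
    (run t s (a * 2 ^ k) n).2 ≠ 0 ∧
    |Real.log |((run t s (a * 2 ^ k) n).2 : ℝ)| - Real.log |(s.2 : ℝ)| - c * n| ≤ k + 1 := by
  induction k with
  | zero =>
    intro a n s hn hs hs0
    rcases Nat.eq_zero_or_pos n with h | h
    · subst h
      refine ⟨hs, hs0, ?_⟩
      simp [run]
    · have : n = 1 := by
        simp at hn; omega
      subst this
      have := full t h2 h3 h1 c hc 0 a s hs hs0
      simpa using this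
  | succ k ih =>
    intro a n s hn hs hs0
    have e1 : a * 2 ^ (k + 1) = (2 * a) * 2 ^ k := by ring
    rw [e1]
    rcases Nat.le_total n (2 ^ k) with h | h
    · obtain ⟨i1, i2, i3⟩ := ih (2 * a) n s h hs hs0
      refine ⟨i1, i2, i3.trans ?_⟩
      push_cast
      linarith
    · obtain ⟨n', rfl⟩ := Nat.exists_eq_add_of_le h
      rw [run_add]
      obtain ⟨f1, f2, f3⟩ := full t h2 h3 h1 c hc k (2 * a) s hs hs0
      rw [show 2 * a * 2 ^ k + 2 ^ k = (2 * a + 1) * 2 ^ k by ring]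
      obtain ⟨i1, i2, i3⟩ := ih (2 * a + 1) n' _ (by rw [pow_succ] at hn; omega) f1 f2
      refine ⟨i1, i2, ?_⟩
      have e2 : ∀ A B C : ℝ, A - C - c * ((2 ^ k + n' : ℕ) : ℝ) = (A - B - c * n') + (B - C - c * 2 ^ k) := by
        intro A B C
        push_cast
        ring
      rw [e2 _ (Real.log |((run t s (2 * a * 2 ^ k) (2 ^ k)).2 : ℝ)|)]
      refine (abs_add_le _ _).trans ?_
      push_cast
      linarith

end

end Pool.Agent.Q39.TM
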