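import Mathlib
import Pool.Agent.Q39.TM.Growth

set_option autoImplicit false

namespace Pool.Agent.Q39.TM
open Filter

section
variable (t : ℕ → ℤ) (h0 : t 0 = 1) (h2 : ∀ n, t (2 * n) = t n) (h3 : ∀ n, t (2 * n + 1) = -t n)
  (h1 : ∀ n, t n * t n = 1) (h : ℕ → ℤ) (hh0 : h 0 = 0) (hh1 : h 1 = 1)
  (hh : ∀ n, h (n + 2) = t (n + 2) * h (n + 1) + h n)

include h2 h3 in
lemma t8 (m : ℕ) : t (8 * m) = t m ∧ t (8 * m + 1) = -t m ∧ t (8 * m + 2) = -t m ∧
    t (8 * m + 3) = t m ∧ t (8 * m + 4) = -t m ∧ t (8 * m + 5) = t m ∧ t (8 * m + 6) = t m ∧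
    t (8 * m + 7) = -t m := by
  have a0 : t (4 * m) = t m := by rw [show 4 * m = 2 * (2 * m) by ring, h2, h2]
  have a1 : t (4 * m + 1) = -t m := by rw [show 4 * m + 1 = 2 * (2 * m) + 1 by ring, h3, h2]
  have a2 : t (4 * m + 2) = -t m := by rw [show 4 * m + 2 = 2 * (2 * m + 1) by ring, h2, h3]
  have a3 : t (4 * m + 3) = t m := by rw [show 4 * m + 3 = 2 * (2 * m + 1) + 1 by ring, h3, h3, neg_neg]
  refine ⟨?_, ?_, ?_, ?_, ?_, ?_, ?_, ?_⟩
  · rw [show 8 * m = 2 * (4 * m) by ring, h2, a0]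
  · rw [show 8 * m + 1 = 2 * (4 * m) + 1 by ring, h3, a0]
  · rw [show 8 * m + 2 = 2 * (4 * m + 1) by ring, h2, a1]
  · rw [show 8 * m + 3 = 2 * (4 * m + 1) + 1 by ring, h3, a1, neg_neg]
  · rw [show 8 * m + 4 = 2 * (4 * m + 2) by ring, h2, a2]
  · rw [show 8 * m + 5 = 2 * (4 * m + 2) + 1 by ring, h3, a2, neg_neg]
  · rw [show 8 * m + 6 = 2 * (4 * m + 3) by ring, h2, a3]
  · rw [show 8 * m + 7 = 2 * (4 * m + 3) + 1 by ring, h3, a3]

include h2 h3 h1 hh in
/-- the eight values following the state `(h (8m+7), h (8m+6))`. -/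
lemma eight (m : ℕ) : h (8 * m + 8) = t (m + 1) * h (8 * m + 7) + h (8 * m + 6) ∧
    h (8 * m + 9) = -t (m + 1) * h (8 * m + 6) ∧
    h (8 * m + 10) = t (m + 1) * h (8 * m + 7) + 2 * h (8 * m + 6) ∧
    h (8 * m + 11) = h (8 * m + 7) + t (m + 1) * h (8 * m + 6) ∧
    h (8 * m + 12) = h (8 * m + 6) ∧
    h (8 * m + 13) = h (8 * m + 7) + 2 * t (m + 1) * h (8 * m + 6) ∧
    h (8 * m + 14) = t (m + 1) * h (8 * m + 7) + 3 * h (8 * m + 6) ∧
    h (8 * m + 15) = -t (m + 1) * h (8 * m + 6) := by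
  obtain ⟨a0, a1, a2, a3, a4, a5, a6, a7⟩ := t8 t h2 h3 (m + 1)
  have hT := h1 (m + 1)
  have b8 : h (8 * m + 8) = t (m + 1) * h (8 * m + 7) + h (8 * m + 6) := by
    have := hh (8 * m + 6)
    rw [show 8 * m + 6 + 2 = 8 * (m + 1) by ring, a0] at this
    rw [show 8 * m + 8 = 8 * (m + 1) by ring]
    exact this
  have b9 : h (8 * m + 9) = -t (m + 1) * h (8 * m + 6) := by
    have := hh (8 * m + 7)
    rw [show 8 * m + 7 + 2 = 8 * (m + 1) + 1 by ring, a1, show 8 * m + 7 + 1 = 8 * m + 8 by ring, b8] at this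
    rw [show 8 * m + 9 = 8 * (m + 1) + 1 by ring]
    linear_combination this - h (8 * m + 7) * hT
  have b10 : h (8 * m + 10) = t (m + 1) * h (8 * m + 7) + 2 * h (8 * m + 6) := by
    have := hh (8 * m + 8)
    rw [show 8 * m + 8 + 2 = 8 * (m + 1) + 2 by ring, a2, show 8 * m + 8 + 1 = 8 * m + 9 by ring, b9, b8] at this
    rw [show 8 * m + 10 = 8 * (m + 1) + 2 by ring]
    linear_combination this + h (8 * m + 6) * hT
  have b11 : h (8 * m + 11) = h (8 * m + 7) + t (m + 1) * h (8 * m + 6) := by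
    have := hh (8 * m + 9)
    rw [show 8 * m + 9 + 2 = 8 * (m + 1) + 3 by ring, a3, show 8 * m + 9 + 1 = 8 * m + 10 by ring, b10, b9] at this
    rw [show 8 * m + 11 = 8 * (m + 1) + 3 by ring]
    linear_combination this + h (8 * m + 7) * hT
  have b12 : h (8 * m + 12) = h (8 * m + 6) := by
    have := hh (8 * m + 10)
    rw [show 8 * m + 10 + 2 = 8 * (m + 1) + 4 by ring, a4, show 8 * m + 10 + 1 = 8 * m + 11 by ring, b11, b10] at this
    rw [show 8 * m + 12 = 8 * (m + 1) + 4 by ring]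
    linear_combination this - h (8 * m + 6) * hT
  have b13 : h (8 * m + 13) = h (8 * m + 7) + 2 * t (m + 1) * h (8 * m + 6) := by
    have := hh (8 * m + 11)
    rw [show 8 * m + 11 + 2 = 8 * (m + 1) + 5 by ring, a5, show 8 * m + 11 + 1 = 8 * m + 12 by ring, b12, b11] at this
    rw [show 8 * m + 13 = 8 * (m + 1) + 5 by ring]
    linear_combination this
  have b14 : h (8 * m + 14) = t (m + 1) * h (8 * m + 7) + 3 * h (8 * m + 6) := by
    have := hh (8 * m + 12)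
    rw [show 8 * m + 12 + 2 = 8 * (m + 1) + 6 by ring, a6, show 8 * m + 12 + 1 = 8 * m + 13 by ring, b13, b12] at this
    rw [show 8 * m + 14 = 8 * (m + 1) + 6 by ring]
    linear_combination this + 2 * h (8 * m + 6) * hT
  have b15 : h (8 * m + 15) = -t (m + 1) * h (8 * m + 6) := by
    have := hh (8 * m + 13)
    rw [show 8 * m + 13 + 2 = 8 * (m + 1) + 7 by ring, a7, show 8 * m + 13 + 1 = 8 * m + 14 by ring, b14, b13] at this
    rw [show 8 * m + 15 = 8 * (m + 1) + 7 by ring]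
    linear_combination this - h (8 * m + 7) * hT
  exact ⟨b8, b9, b10, b11, b12, b13, b14, b15⟩

include h0 h2 h3 h1 hh0 hh1 hh in
lemma state (m : ℕ) : run t (1, -1) 0 (m + 1) = (h (8 * m + 7), h (8 * m + 6)) := by
  induction m with
  | zero =>
    have t1 : t 1 = -1 := by have := h3 0; simpa [h0] using this
    have t2 : t 2 = -1 := by have := h2 1; simpa [t1] using this
    have t3 : t 3 = 1 := by have := h3 1; simpa [t1] using this
    have t4 : t 4 = -1 := by have := h2 2; simpa [t2] using this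
    have t5 : t 5 = 1 := by have := h3 2; simpa [t2] using this
    have t6 : t 6 = 1 := by have := h2 3; simpa [t3] using this
    have t7 : t 7 = -1 := by have := h3 3; simpa [t3] using this
    have a2 := hh 0
    have a3 := hh 1
    have a4 := hh 2
    have a5 := hh 3
    have a6 := hh 4
    have a7 := hh 5
    norm_num at a2 a3 a4 a5 a6 a7
    rw [t2, hh1, hh0] at a2
    rw [t3, a2, hh1] at a3
    rw [t4, a3, a2] at a4
    rw [t5, a4, a3] at a5
    rw [t6, a5, a4] at a6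
    rw [t7, a6, a5] at a7
    show step (t (0 + 0)) (1, -1) = _
    norm_num [step, h0, a6, a7]
  | succ m ih =>
    show step (t (0 + (m + 1))) (run t (1, -1) 0 (m + 1)) = _
    rw [ih, zero_add]
    obtain ⟨_, _, _, _, _, _, b14, b15⟩ := eight t h2 h3 h1 h hh m
    rw [show 8 * (m + 1) + 7 = 8 * m + 15 by ring, show 8 * (m + 1) + 6 = 8 * m + 14 by ring, b14, b15]
    rfl

include h0 h2 h3 h1 hh0 hh1 hh in
lemma cone (m : ℕ) : 2 * |h (8 * m + 7)| ≤ |h (8 * m + 6)| ∧ h (8 * m + 6) ≠ 0 ∧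
    |h (8 * m + 6)| ≤ 4 * |h (8 * m + 7)| := by
  induction m with
  | zero =>
    have := state t h0 h2 h3 h1 h hh0 hh1 hh 0
    have e : run t (1, -1) 0 (0 + 1) = (1, -2) := by
      show step (t (0 + 0)) (1, -1) = _
      norm_num [step, h0]
    rw [e] at this
    simp only [Prod.mk.injEq] at this
    rw [← this.1, ← this.2]
    decide
  | succ m ih =>
    obtain ⟨i1, i2, i3⟩ := ih
    obtain ⟨_, _, _, _, _, _, b14, b15⟩ := eight t h2 h3 h1 h hh m
    rw [show 8 * (m + 1) + 7 = 8 * m + 15 by ring, show 8 * (m + 1) + 6 = 8 * m + 14 by ring, b14, b15]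
    set x := h (8 * m + 7)
    set y := h (8 * m + 6)
    have hT : |t (m + 1)| = 1 := by
      have := h1 (m + 1)
      rw [← abs_mul_abs_self] at this
      have h0 := abs_nonneg (t (m + 1))
      nlinarith
    have hy : 0 < |y| := abs_pos.2 i2
    have e1 : |-t (m + 1) * y| = |y| := by rw [abs_mul, abs_neg, hT, one_mul]
    have e2 : |t (m + 1) * x| = |x| := by rw [abs_mul, hT, one_mul]
    have e3 : |3 * y| = 3 * |y| := by rw [abs_mul]; rfl
    have lo : 3 * |y| - |x| ≤ |t (m + 1) * x + 3 * y| := by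
      have := abs_sub_abs_le_abs_sub (3 * y) (-(t (m + 1) * x))
      rw [abs_neg, e2, e3, sub_neg_eq_add, add_comm (3 * y)] at this
      exact this
    have up : |t (m + 1) * x + 3 * y| ≤ |x| + 3 * |y| := by
      have := abs_add_le (t (m + 1) * x) (3 * y)
      rwa [e2, e3] at this
    rw [e1]
    refine ⟨by omega, ?_, by omega⟩
    intro h00
    rw [h00, abs_zero] at lo
    omega

include h0 h2 h3 h1 hh0 hh1 hh in
/-- comparison of `h n` with the nearest state -/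
lemma compare (m i : ℕ) (hi : i < 8) : |h (8 * m + 6)| ≤ 4 * |h (8 * m + 6 + i)| ∧
    |h (8 * m + 6 + i)| ≤ 4 * |h (8 * m + 6)| := by
  obtain ⟨c1, c2, c3⟩ := cone t h0 h2 h3 h1 h hh0 hh1 hh m
  obtain ⟨b8, b9, b10, b11, b12, b13, _, _⟩ := eight t h2 h3 h1 h hh m
  have hT : |t (m + 1)| = 1 := by
    have := h1 (m + 1)
    rw [← abs_mul_abs_self] at this
    have h0 := abs_nonneg (t (m + 1))
    nlinarith
  have key : ∀ (u v : ℤ), 2 * |u| ≤ |v| → |v| ≤ 4 * |u + v| ∧ |u + v| ≤ 4 * |v| := by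
    intro u v huv
    have l1 := abs_add_le u v
    have l2 := abs_sub_abs_le_abs_sub v (-u)
    rw [abs_neg, sub_neg_eq_add, add_comm v] at l2
    have := abs_nonneg u
    constructor <;> omega
  set x := h (8 * m + 7)
  set y := h (8 * m + 6)
  have hy : 0 < |y| := abs_pos.2 c2
  have hx := abs_nonneg x
  have e2 : |t (m + 1) * x| = |x| := by rw [abs_mul, hT, one_mul]
  have e3 : |t (m + 1) * y| = |y| := by rw [abs_mul, hT, one_mul]
  interval_cases i
  · change |y| ≤ 4 * |y| ∧ |y| ≤ 4 * |y|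
    constructor <;> omega
  · change |y| ≤ 4 * |x| ∧ |x| ≤ 4 * |y|
    constructor <;> omega
  · rw [show 8 * m + 6 + 2 = 8 * m + 8 by ring, b8]
    exact key _ _ (by rw [e2]; omega)
  · rw [show 8 * m + 6 + 3 = 8 * m + 9 by ring, b9, neg_mul, abs_neg, e3]
    constructor <;> omega
  · rw [show 8 * m + 6 + 4 = 8 * m + 10 by ring, b10]
    have e4 : |2 * y| = 2 * |y| := by rw [abs_mul]; rfl
    have l1 := abs_add_le (t (m + 1) * x) (2 * y)
    have l2 := abs_sub_abs_le_abs_sub (2 * y) (-(t (m + 1) * x))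
    rw [abs_neg, sub_neg_eq_add, add_comm (2 * y)] at l2
    constructor <;> omega
  · rw [show 8 * m + 6 + 5 = 8 * m + 11 by ring, b11]
    have := key x (t (m + 1) * y) (by rw [e3]; omega)
    rwa [e3] at this
  · rw [show 8 * m + 6 + 6 = 8 * m + 12 by ring, b12]
    constructor <;> omega
  · rw [show 8 * m + 6 + 7 = 8 * m + 13 by ring, b13]
    have e4 : |2 * t (m + 1) * y| = 2 * |y| := by rw [mul_assoc, abs_mul, e3]; rfl
    have l1 := abs_add_le x (2 * t (m + 1) * y)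
    have l2 := abs_sub_abs_le_abs_sub (2 * t (m + 1) * y) (-x)
    rw [abs_neg, sub_neg_eq_add, add_comm (2 * t (m + 1) * y)] at l2
    constructor <;> omega

include h0 h2 h3 h1 hh0 hh1 hh in
lemma log_bound (c : ℝ) (hc : ∀ k : ℕ, |Lr k - c * 2 ^ k| ≤ Real.log (9 / 8)) (n : ℕ) (hn : 6 ≤ n) :
    h n ≠ 0 ∧ |Real.log |(h n : ℝ)| - c / 8 * n| ≤ Nat.log 2 n + 4 + |c| := by
  obtain ⟨m, i, hi, rfl⟩ : ∃ m i, i < 8 ∧ n = 8 * m + 6 + i :=
    ⟨(n - 6) / 8, (n - 6) % 8, Nat.mod_lt _ (by norm_num), by omega⟩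
  obtain ⟨k1, k2⟩ := compare t h0 h2 h3 h1 h hh0 hh1 hh m i hi
  obtain ⟨_, c2, _⟩ := cone t h0 h2 h3 h1 h hh0 hh1 hh m
  have hst := state t h0 h2 h3 h1 h hh0 hh1 hh m
  set L := Nat.log 2 (m + 1) + 1 with hL
  have hmL : m + 1 ≤ 2 ^ L := (Nat.lt_pow_succ_log_self (by norm_num) _).le
  have hcl := (claim t h2 h3 h1 c hc L 0 (m + 1) (1, -1) hmL (by norm_num) (by norm_num)).2.2
  rw [zero_mul, hst] at hcl
  have e0 : Real.log |(((1 : ℤ), (-1 : ℤ)).2 : ℝ)| = 0 := by norm_num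
  rw [e0, sub_zero] at hcl
  simp only at hcl
  have hy : 0 < |h (8 * m + 6)| := abs_pos.2 c2
  have hne : h (8 * m + 6 + i) ≠ 0 := by
    intro h00
    rw [h00, abs_zero] at k1
    omega
  refine ⟨hne, ?_⟩
  have hw : 0 < |h (8 * m + 6 + i)| := abs_pos.2 hne
  have hy' : (0 : ℝ) < |(h (8 * m + 6) : ℝ)| := by exact_mod_cast hy
  have hw' : (0 : ℝ) < |(h (8 * m + 6 + i) : ℝ)| := by exact_mod_cast hw
  have k1' : |(h (8 * m + 6) : ℝ)| ≤ 4 * |(h (8 * m + 6 + i) : ℝ)| := by exact_mod_cast k1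
  have k2' : |(h (8 * m + 6 + i) : ℝ)| ≤ 4 * |(h (8 * m + 6) : ℝ)| := by exact_mod_cast k2
  have l1 := Real.log_le_log hy' k1'
  have l2 := Real.log_le_log hw' k2'
  rw [Real.log_mul (by norm_num) hw'.ne'] at l1
  rw [Real.log_mul (by norm_num) hy'.ne'] at l2
  have l4 : Real.log 4 ≤ 2 := by
    have : Real.log 4 = 2 * Real.log 2 := by
      rw [show (4 : ℝ) = 2 ^ 2 by norm_num, Real.log_pow]; norm_num
    have := Real.log_two_lt_d9
    linarith
  have d1 : |Real.log |(h (8 * m + 6 + i) : ℝ)| - (Real.log |(h (8 * m + 6) : ℝ)|)| ≤ 2 := by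
    rw [abs_le]; constructor <;> linarith
  have d2 : |c * ((m + 1 : ℕ) : ℝ) - c / 8 * ((8 * m + 6 + i : ℕ) : ℝ)| ≤ |c| := by
    have : c * ((m + 1 : ℕ) : ℝ) - c / 8 * ((8 * m + 6 + i : ℕ) : ℝ) = c * ((2 - (i : ℝ)) / 8) := by
      push_cast; ring
    rw [this, abs_mul]
    have hi' : (i : ℝ) ≤ 7 := by exact_mod_cast (by omega : i ≤ 7)
    have hi0 : (0 : ℝ) ≤ i := Nat.cast_nonneg _
    have : |(2 - (i : ℝ)) / 8| ≤ 1 := by
      rw [abs_le]; constructor <;> linarith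
    calc |c| * |(2 - (i : ℝ)) / 8| ≤ |c| * 1 := mul_le_mul_of_nonneg_left this (abs_nonneg c)
      _ = |c| := mul_one _
  have d3 : (L : ℝ) ≤ Nat.log 2 (8 * m + 6 + i) + 1 := by
    have : Nat.log 2 (m + 1) ≤ Nat.log 2 (8 * m + 6 + i) := Nat.log_mono_right (by omega)
    rw [hL]
    push_cast
    have : (Nat.log 2 (m + 1) : ℝ) ≤ Nat.log 2 (8 * m + 6 + i) := by exact_mod_cast this
    linarith
  have e1 : Real.log |(h (8 * m + 6 + i) : ℝ)| - c / 8 * ((8 * m + 6 + i : ℕ) : ℝ) =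
      (Real.log |(h (8 * m + 6 + i) : ℝ)| - Real.log |(h (8 * m + 6) : ℝ)|) +
      (Real.log |(h (8 * m + 6) : ℝ)| - c * ((m + 1 : ℕ) : ℝ)) +
      (c * ((m + 1 : ℕ) : ℝ) - c / 8 * ((8 * m + 6 + i : ℕ) : ℝ)) := by ring
  rw [e1]
  refine (abs_add_le _ _).trans ?_
  have := abs_add_le (Real.log |(h (8 * m + 6 + i) : ℝ)| - Real.log |(h (8 * m + 6) : ℝ)|)
    (Real.log |(h (8 * m + 6) : ℝ)| - c * ((m + 1 : ℕ) : ℝ))
  linarith

end

/-- numerical bounds for the constant -/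
lemma num (c : ℝ) (hc : ∀ k : ℕ, |Lr k - c * 2 ^ k| ≤ Real.log (9 / 8)) :
    1.152 < Real.exp (c / 8) ∧ Real.exp (c / 8) < 1.1525 := by
  have h8 := hc 8
  rw [abs_le] at h8
  have hr := r_pos 8
  have e1 : Real.exp (c / 8) ^ 2048 = Real.exp (c * 2 ^ 8) := by
    rw [← Real.exp_nat_mul]
    congr 1
    push_cast
    ring
  have lo : (r 8 : ℝ) * (8 / 9) ≤ Real.exp (c / 8) ^ 2048 := by
    rw [e1]
    have : (r 8 : ℝ) * (8 / 9) = Real.exp (Lr 8 - Real.log (9 / 8)) := by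
      rw [Real.exp_sub, Real.exp_log (by norm_num)]
      unfold Lr
      rw [Real.exp_log hr]
      ring
    rw [this]
    exact Real.exp_le_exp.2 (by linarith)
  have up : Real.exp (c / 8) ^ 2048 ≤ (r 8 : ℝ) * (9 / 8) := by
    rw [e1]
    have : (r 8 : ℝ) * (9 / 8) = Real.exp (Lr 8 + Real.log (9 / 8)) := by
      rw [Real.exp_add, Real.exp_log (by norm_num)]
      unfold Lr
      rw [Real.exp_log hr]
    rw [this]
    exact Real.exp_le_exp.2 (by linarith)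
  have hg := Real.exp_pos (c / 8)
  have n1 : (9 : ℤ) * 1152 ^ 2048 < r 8 * 8 * 1000 ^ 2048 := by decide +kernel
  have n2 : (9 : ℤ) * r 8 * 10000 ^ 2048 < 8 * 11525 ^ 2048 := by decide +kernel
  have n1' : (1.152 : ℝ) ^ 2048 < (r 8 : ℝ) * (8 / 9) := by
    have : (9 : ℝ) * 1152 ^ 2048 < (r 8 : ℝ) * 8 * 1000 ^ 2048 := by exact_mod_cast n1
    rw [show (1.152 : ℝ) = 1152 / 1000 by norm_num, div_pow, div_lt_iff₀ (by positivity)]
    linarith
  have n2' : (r 8 : ℝ) * (9 / 8) < (1.1525 : ℝ) ^ 2048 := by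
    have : (9 : ℝ) * (r 8 : ℝ) * 10000 ^ 2048 < 8 * 11525 ^ 2048 := by exact_mod_cast n2
    rw [show (1.1525 : ℝ) = 11525 / 10000 by norm_num, div_pow, lt_div_iff₀ (by positivity)]
    linarith
  exact ⟨lt_of_pow_lt_pow_left₀ 2048 hg.le (n1'.trans_le lo),
    lt_of_pow_lt_pow_left₀ 2048 (by norm_num) (up.trans_lt n2')⟩

end Pool.Agent.Q39.TM
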